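import Pool.Agent.V8H16.TD.Quo
import Pool.Agent.V8H16.TD.Deg

/-!
# Counterexamples without completely adjacent disjoint circuits (MP_e6539c_co)

Two disjoint circuits `C` and `D` of a graph are called completely adjacent if every vertex of `C`
has a neighbour on `D` and every vertex of `D` has a neighbour on `C`.

Let `G` be a finite multigraph without Petersen minor whose edge set is not the union of two cycles.
Then `G` can be contracted (by the identification of disjoint connected vertex sets) to a graph `H`
with the same properties, without isthmuses if `G` has none, such that all circuits of `H` apart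
from loops have at least five edges, and such that `H` does not have two disjoint completely
adjacent circuits (apart from two loops).

So it is sufficient to prove the conjecture for graphs of girth at least five without two disjoint
completely adjacent circuits.

Proof.  Let `H` be a contraction of `G` whose edge set is not the union of two cycles, with as few
edges apart from loops as possible.  A circuit of `H` with two, three or four edges could be
contracted, and the two cycles of the contraction would give two cycles of `H` (starting library).
Let `C` and `D` be completely adjacent disjoint circuits of `H`.  By the theorem on patterns on a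
torus (`TC/Cyc`) there are two edges between `C` and `D` such that their ends have total distance
one or two along `C` and `D`, and then there is a circuit with three or four edges; or there are
five disjoint edges between `C` and `D` whose cyclic orders form a pentagram, and then `H` and `G`
have a Petersen minor.
-/

set_option autoImplicit false

namespace Pool.Agent.Results.MP_e6539c_co.AdjacentCircuits

open Pool.Agent.TH362.Multi Pool.Agent.V8H16.TD

/-- The edge `e` joins the vertices `u` and `v`. -/
def Joins {V E : Type} (s t : E → V) (e : E) (u v : V) : Prop :=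
  (s e = u ∧ t e = v) ∨ (s e = v ∧ t e = u)

/-- The different vertices `c 0, ..., c (n - 1)` and the different edges `f 0, ..., f (n - 1)` are
the vertices and the edges of a circuit with `n ≥ 1` edges: the edge `f i` joins `c i` and
`c (i + 1)`, where the indices are read modulo `n`.  A loop is a circuit with one edge, two parallel
edges form a circuit with two edges. -/
def IsCircuit {V E : Type} (s t : E → V) (n : ℕ) (c : ℕ → V) (f : ℕ → E) : Prop :=
  0 < n ∧ (∀ i < n, ∀ j < n, c i = c j → i = j) ∧ (∀ i < n, ∀ j < n, f i = f j → i = j) ∧
    ∀ i < n, Joins s t (f i) (c i) (c ((i + 1) % n))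

/-- The Petersen graph is a minor: there are ten disjoint connected vertex sets, one for each
two-element subset of `{0, 1, 2, 3, 4}`, such that the sets for disjoint subsets are joined by an
edge. -/
def HasPetersenMinor {V E : Type} (s t : E → V) : Prop :=
  ∃ B : {p : Finset (Fin 5) // p.card = 2} → Set V,
    (∀ i, ConnectedSet s t (B i)) ∧
    (∀ i j, i ≠ j → Disjoint (B i) (B j)) ∧
    ∀ i j, Disjoint i.1 j.1 → ∃ e, (s e ∈ B i ∧ t e ∈ B j) ∨ (s e ∈ B j ∧ t e ∈ B i)

/-- The edge set is the union of two cycles. -/
def TwoCycles {V E : Type} (s t : E → V) : Prop :=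
  ∃ C₁ C₂ : Set E, IsCycle s t C₁ ∧ IsCycle s t C₂ ∧ C₁ ∪ C₂ = Set.univ

/-- Let `s t : E → V` be a finite multigraph without a Petersen minor whose edge set is not the
union of two cycles.  Then there is a contraction, given by a map `κ : V → V` with connected
classes, with the same properties and without new isthmuses, in which all circuits apart from loops
have at least five edges, such that for any two disjoint circuits, not both of them loops, some
vertex of one of them is not adjacent to any vertex of the other one. -/
theorem result (V E : Type) [Finite V] [Finite E] (s t : E → V) (hP : ¬ HasPetersenMinor s t)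
    (hT : ¬ TwoCycles s t) :
    ∃ κ : V → V, (∀ v, ConnectedSet s t {u | κ u = κ v}) ∧
      ¬ TwoCycles (fun e => κ (s e)) (fun e => κ (t e)) ∧
      ¬ HasPetersenMinor (fun e => κ (s e)) (fun e => κ (t e)) ∧
      (∀ e, Isthmus (fun e => κ (s e)) (fun e => κ (t e)) e → Isthmus s t e) ∧
      (∀ n c f, IsCircuit (fun e => κ (s e)) (fun e => κ (t e)) n c f → n = 1 ∨ 5 ≤ n) ∧
      ∀ p q c d f g, IsCircuit (fun e => κ (s e)) (fun e => κ (t e)) p c f →
        IsCircuit (fun e => κ (s e)) (fun e => κ (t e)) q d g → (2 ≤ p ∨ 2 ≤ q) →
        (∀ i < p, ∀ j < q, c i ≠ d j) →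
        (∃ i < p, ∀ j < q, ∀ e, ¬ Joins (fun e => κ (s e)) (fun e => κ (t e)) e (c i) (d j)) ∨
        (∃ j < q, ∀ i < p, ∀ e, ¬ Joins (fun e => κ (s e)) (fun e => κ (t e)) e (c i) (d j)) := by
  classical
  have := Fintype.ofFinite V
  have := Fintype.ofFinite E
  have nz : ∀ s t : E → V, TwoCycles s t → TH362.TF.NZ s t Finset.univ := by
    rintro s t ⟨C₁, C₂, h1, h2, h3⟩
    exact nz_of_two h1 h2 h3
  have h : ¬ TH362.TF.NZ s t Finset.univ := fun h => hT (TH362.TF.two_cycles s t h)
  obtain ⟨κ, h1, h2, h3⟩ := exists_min_quo h
  have hP' : ¬ HasPetersenMinor (fun e => κ (s e)) (fun e => κ (t e)) :=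
    fun h => hP (lift_minor h1 h)
  refine ⟨κ, h1, fun h => h2 (nz _ _ h), hP', fun e he => lift_isthmus κ he, ?_, ?_⟩
  · intro n c f hc
    by_contra hn
    have h0 := hc.1
    have hj := hc.2.2.2
    have hi := hc.2.1
    rcases (by omega : n = 2 ∨ n = 3 ∨ n = 4) with rfl | rfl | rfl
    · exact h3.s2 (c 0) (c 1) (f 0) (f 1)
        (fun he => absurd (hi 0 (by omega) 1 (by omega) he) (by omega))
        (fun he => absurd (hc.2.2.1 0 (by omega) 1 (by omega) he) (by omega))
        (hj 0 (by omega)) (hj 1 (by omega))
    · exact h3.s3 (c 0) (c 1) (c 2) (f 0) (f 1) (f 2)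
        (fun he => absurd (hi 0 (by omega) 1 (by omega) he) (by omega))
        (fun he => absurd (hi 0 (by omega) 2 (by omega) he) (by omega))
        (fun he => absurd (hi 1 (by omega) 2 (by omega) he) (by omega))
        (hj 0 (by omega)) (hj 1 (by omega)) (hj 2 (by omega))
    · exact h3.s4 (c 0) (c 1) (c 2) (c 3) (f 0) (f 1) (f 2) (f 3)
        (fun he => absurd (hi 0 (by omega) 1 (by omega) he) (by omega))
        (fun he => absurd (hi 0 (by omega) 2 (by omega) he) (by omega))
        (fun he => absurd (hi 0 (by omega) 3 (by omega) he) (by omega))
        (fun he => absurd (hi 1 (by omega) 2 (by omega) he) (by omega))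
        (fun he => absurd (hi 1 (by omega) 3 (by omega) he) (by omega))
        (fun he => absurd (hi 2 (by omega) 3 (by omega) he) (by omega))
        (hj 0 (by omega)) (hj 1 (by omega)) (hj 2 (by omega)) (hj 3 (by omega))
  · intro p q c d f g hc hd hpq dis
    by_contra hcon
    push Not at hcon
    obtain ⟨hC, hD⟩ := hcon
    exact hP' (h3.pminor ⟨hc.1, hc.2.1, hc.2.2.1, hc.2.2.2⟩ ⟨hd.1, hd.2.1, hd.2.2.1, hd.2.2.2⟩
      dis hpq hC hD)

end Pool.Agent.Results.MP_e6539c_co.AdjacentCircuits
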