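import Pool.Agent.TH362.TF.Multi
import Pool.Agent.TH362.TF.Contr
import Pool.Agent.TH362.TF.Cyc
import Pool.Agent.R140.PK.Lift
import Pool.Agent.V8H13.DM.Flow

/-!
# Graphs with a dominating set of three vertices (MP_e6539c_co)

Let `G` be a finite multigraph without isthmuses with a set `D` of at most three vertices such that
every vertex is in `D` or is joined by an edge to a vertex of `D`.  Then the edge set of `G` is the
union of two cycles, or a component of `G` can be contracted to the Petersen graph.  In particular
the edge set is the union of two cycles if there is no Petersen minor.  The order, the number of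
vertices of odd degree, the degrees, the connectivity and the width parameters of `G` are arbitrary.

Proof.  Let `H` be obtained from `G` by contraction of disjoint connected vertex sets, without
nowhere-zero flow over the group of order four and without Petersen quotient, and with as few edges
(apart from loops) as possible.  The library of starting files gives that `H` has no circuits of
length at most four, that no vertex has exactly one or two neighbours, and that at least 18 vertices
have odd degree.  The image `D'` of `D` dominates the vertices of `H` which have neighbours.

(1) Let `w` be a vertex outside `D'` with neighbours.  For every `d` in `D'` at most one neighbour of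
`w` is equal or adjacent to `d`.  So `w` has exactly three neighbours, `D'` has three elements, and
for every `d` exactly one neighbour of `w` is equal or adjacent to `d`.

(2) It follows that `D'` is independent, that every `w` is adjacent to exactly one or to all three
elements of `D'`, and the latter holds for at most one vertex `z`.  Let `A i` be the set of the
vertices adjacent to `d i` only.  Every vertex of `A i` is adjacent to `d i`, to one vertex of
`A (i + 1)` and to one vertex of `A (i + 2)`.  So these sets have the same size `m`, and `m` is at
least 5.

(3) This graph has a nowhere-zero flow: let `v 0, v 1, v 2` be the nonzero elements of the group and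
let `P x = v i` for `x` in `A i`, except that `P x = 0` for three vertices (one in each `A i`, with
pairwise disjoint closed neighbourhoods outside `D'`) if `m` is odd and there is no `z`, or if `m` is
even and there is a `z`.  An edge between `x` and `y` in different sets `A i` gets `P x + P y`, the
edge between `d i` and `x` in `A i` gets the sum of the values of `P` at the other two neighbours of
`x`, and the edge from `z` to `d i` gets `v i`.
-/

set_option autoImplicit false

namespace Pool.Agent.Results.MP_e6539c_co.DominationThree

open Pool.Agent.TH362.Multi Pool.Agent.R140.PK Pool.Agent.V8H13.DM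

/-- Let `s t : E → V` be a finite multigraph without isthmuses and let `D` be a set of at most three
vertices such that every vertex is in `D` or is joined by an edge to a vertex of `D`. Then the edge
set is the union of two cycles, or some component can be contracted to the Petersen graph.  In
particular the edge set is the union of two cycles if there is no Petersen minor. -/
theorem result (V E : Type) [Finite V] [Finite E] (s t : E → V)
    (hb : ∀ e, ¬ Isthmus s t e) (D : Finset V) (hD : D.card ≤ 3)
    (hdom : ∀ v, v ∉ D → ∃ d ∈ D, ∃ e, (s e = v ∧ t e = d) ∨ (s e = d ∧ t e = v)) :
    (∃ C₁ C₂ : Set E, IsCycle s t C₁ ∧ IsCycle s t C₂ ∧ C₁ ∪ C₂ = Set.univ) ∨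
      ContractsToPetersen s t := by
  classical
  have := Fintype.ofFinite V
  have := Fintype.ofFinite E
  have hn := TH362.TF.n1_of s t hb
  by_cases h1 : TH362.TF.NZ s t Finset.univ
  · exact Or.inl (TH362.TF.two_cycles s t h1)
  by_cases h2 : TH362.TF.PQ s t Finset.univ
  · exact Or.inr (TH362.TF.contracts s t hn h2)
  exfalso
  obtain ⟨π, hπ, hM⟩ := exists_Mc s t Finset.univ hn h1 h2
  have hG := Mc_G34 hM
  have hdom' : Dom (R890.FF.Nb (fun e => π (s e)) (fun e => π (t e)) Finset.univ)
      (D.image π) := by
    intro w u hwu
    have hw : ∃ v, π v = w := by
      obtain ⟨_, e, _, he⟩ := hwu
      rcases he with ⟨h3, _⟩ | ⟨_, h3⟩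
      · exact ⟨_, h3⟩
      · exact ⟨_, h3⟩
    obtain ⟨v, rfl⟩ := hw
    by_cases hv : v ∈ D
    · exact Or.inl (Finset.mem_image_of_mem π hv)
    · obtain ⟨d, hd, e, he⟩ := hdom v hv
      by_cases hvd : π d = π v
      · exact Or.inl (hvd ▸ Finset.mem_image_of_mem π hd)
      · refine Or.inr ⟨π d, Finset.mem_image_of_mem π hd, hvd, e, Finset.mem_univ e, ?_⟩
        rcases he with ⟨h3, h4⟩ | ⟨h3, h4⟩
        · exact Or.inl ⟨congrArg π h3, congrArg π h4⟩
        · exact Or.inr ⟨congrArg π h3, congrArg π h4⟩
  obtain ⟨f, hf1, hf2, hf3⟩ := hG.dom3 (Finset.card_image_le.trans hD) hdom' (Mc_card hM)
  exact Mc_nz_of hM f hf1 hf2 hf3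

end Pool.Agent.Results.MP_e6539c_co.DominationThree
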