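import Pool.Agent.V8H13.LF.Main

/-!
# Graphs without an induced linear forest with nine vertices (MP_e6539c_co)

Let `F` be the disjoint union of at most four paths with at most nine vertices together, but not of
three paths with three vertices.  Let `G` be a finite multigraph without isthmuses and without
Petersen minor which has no induced subgraph `F` (in its underlying simple graph).  Then the edge
set of `G` is the union of two cycles.

The order, the degrees, the connectivity and the width parameters of `G` are arbitrary.  For example
`G` may be a graph without induced path with nine vertices, or without two disjoint induced paths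
with five and four vertices and without edges between them, or without four edges at distance at
least two from each other.

Proof.  Let `H` be obtained from `G` by contraction of disjoint connected vertex sets, without
nowhere-zero flow over the group of order four, and with as few edges (apart from loops) as possible.
Then `H` has no circuits with two, three or four edges, and no vertices with exactly one or two
neighbours; at most one component of `H` has edges apart from loops, and it has at least 18 vertices
of odd degree (starting library).  `H` has no Petersen subgraph, and no induced subgraph `F`: the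
paths of such a subgraph are lifted to `G` by shortest paths in the connected sets (`LF/Lift`).

The graphs `H` with these properties are searched up to isomorphism (`LF/Def`): an induced
subgraph is extended by a neighbour of a vertex with at most two neighbours so far, or, if there is
no such vertex, by any neighbour; every extension has an induced subgraph `F`, or a Petersen
subgraph, or is isomorphic to a graph of the next list, and every graph in the lists with all
degrees at least three has at most 17 vertices of odd degree.  The lists for the 17 linear forests
with nine vertices contain about 21000 graphs with at most 20 vertices.  They are given together with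
the decision trees, the copies of `F` and the isomorphisms, and checked by the kernel.
-/

set_option autoImplicit false

namespace Pool.Agent.Results.MP_e6539c_co.LinearForestNine

open Pool.Agent.TH362.Multi Pool.Agent.V8H13.LF

/-- The Petersen graph is a minor: there are ten disjoint connected vertex sets, one for each
two-element subset of `{0, 1, 2, 3, 4}`, such that the sets for disjoint subsets are joined by an
edge. -/
def HasPetersenMinor {V E : Type} (s t : E → V) : Prop :=
  ∃ B : {p : Finset (Fin 5) // p.card = 2} → Set V,
    (∀ i, ConnectedSet s t (B i)) ∧
    (∀ i j, i ≠ j → Disjoint (B i) (B j)) ∧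
    ∀ i j, Disjoint i.1 j.1 → ∃ e, (s e ∈ B i ∧ t e ∈ B j) ∨ (s e ∈ B j ∧ t e ∈ B i)

/-- The underlying simple graph has the disjoint union of four paths with `a`, `b`, `c` and `d`
vertices as an induced subgraph: there are different vertices `p 0, ..., p (a + b + c + d - 1)` such
that `p i` and `p j` with `i < j` are joined by an edge if and only if `i + 1 = j` and `p j` is not
the first vertex of a path. -/
def HasInducedPaths {V E : Type} (s t : E → V) (a b c d : ℕ) : Prop :=
  ∃ p : Fin (a + b + c + d) → V, Function.Injective p ∧ ∀ i j, i < j →
    ((∃ e, (s e = p i ∧ t e = p j) ∨ (s e = p j ∧ t e = p i)) ↔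
      i.val + 1 = j.val ∧ j.val ≠ a ∧ j.val ≠ a + b ∧ j.val ≠ a + b + c)

/-- reduction to nine vertices -/
theorem key (V E : Type) [Finite V] [Finite E] (s t : E → V)
    (hb : ∀ e, ¬ Isthmus s t e) (hP : ¬ HasPetersenMinor s t)
    (a b c d : ℕ) (h9 : a + b + c + d ≤ 9) (hF : ¬ HasInducedPaths s t a b c d)
    (cs : List Bool) (hl : cs.length = 9)
    (hcs : ∀ j, j < 9 → (cs[j]? = some true ↔ j ≠ 0 ∧ j ≠ 9 - (b + c + d) ∧ j ≠ 9 - (c + d) ∧
      j ≠ 9 - d))
    (hno : ∀ {W : Type} [Finite W] {R : W → W → Prop}, HypF R cs → ∀ {a b : W}, R a b → False) :
    ∃ C₁ C₂ : Set E, IsCycle s t C₁ ∧ IsCycle s t C₂ ∧ C₁ ∪ C₂ = Set.univ := by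
  refine two_of s t hb hP cs hno ?_
  rintro ⟨p, hp⟩
  rw [hl] at hp
  set k := 9 - (a + b + c + d) with hk
  refine hF ⟨fun i => if i.val < a then p i.val else p (i.val + k), ?_, ?_⟩
  · intro i j hij
    have hij' : (if i.val < a then p i.val else p (i.val + k)) =
        (if j.val < a then p j.val else p (j.val + k)) := hij
    have hi := i.isLt
    have hj := j.isLt
    have inj : ∀ x y, x < 9 → y < 9 → p x = p y → x = y := by
      intro x y hx hy hxy
      rcases lt_trichotomy x y with h | h | h
      · exact absurd hxy (hp x y h hy).1
      · exact h
      · exact absurd hxy.symm (hp y x h hx).1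
    apply Fin.ext
    split_ifs at hij' with h1 h2 h2
    · exact inj _ _ (by omega) (by omega) hij'
    · have := inj _ _ (by omega) (by omega) hij'
      omega
    · have := inj _ _ (by omega) (by omega) hij'
      omega
    · have := inj _ _ (by omega) (by omega) hij'
      omega
  · intro i j hij
    have hij' : i.val < j.val := hij
    have hj := j.isLt
    by_cases h1 : i.val < a
    · by_cases h2 : j.val < a
      · simp only [h1, h2, if_true]
        rw [(hp _ _ hij' (by omega)).2, hcs _ (by omega)]
        omega
      · simp only [h1, h2, if_true, if_false]
        rw [(hp _ _ (by omega) (by omega)).2, hcs _ (by omega)]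
        omega
    · have h2 : ¬ j.val < a := by omega
      simp only [h1, h2, if_false]
      rw [(hp _ _ (by omega) (by omega)).2, hcs _ (by omega)]
      omega

/-- Let `s t : E → V` be a finite multigraph without isthmuses and without Petersen minor. Let `F`
be the disjoint union of paths with `a ≥ b ≥ c ≥ d` vertices, where `a + b + c + d ≤ 9`, but not
`a = b = c = 3`. If `F` is not an induced subgraph, then the edge set is the union of two cycles. -/
theorem result (V E : Type) [Finite V] [Finite E] (s t : E → V)
    (hb : ∀ e, ¬ Isthmus s t e) (hP : ¬ HasPetersenMinor s t)
    (a b c d : ℕ) (hab : b ≤ a) (hbc : c ≤ b) (hcd : d ≤ c) (h9 : a + b + c + d ≤ 9)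
    (h3 : ¬ (a = 3 ∧ b = 3 ∧ c = 3)) (hF : ¬ HasInducedPaths s t a b c d) :
    ∃ C₁ C₂ : Set E, IsCycle s t C₁ ∧ IsCycle s t C₂ ∧ C₁ ∪ C₂ = Set.univ := by
  have K := key V E s t hb hP a b c d h9 hF
  clear hF
  have hb4 : b ≤ 4 := by omega
  interval_cases b
  · -- `b = 0`
    have hc : c ≤ 0 := by omega
    interval_cases c
    · have hd : d ≤ 0 := by omega
      interval_cases d
      · exact K T9.cs rfl (by decide) T9.no
  · -- `b = 1`
    have hc : c ≤ 1 := by omega
    interval_cases c
    · have hd : d ≤ 0 := by omega
      interval_cases d
      · exact K T81.cs rfl (by decide) T81.no
    · have hd : d ≤ 1 := by omega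
      interval_cases d
      · exact K T711.cs rfl (by decide) T711.no
      · exact K T6111.cs rfl (by decide) T6111.no
  · -- `b = 2`
    have hc : c ≤ 2 := by omega
    interval_cases c
    · have hd : d ≤ 0 := by omega
      interval_cases d
      · exact K T72.cs rfl (by decide) T72.no
    · have hd : d ≤ 1 := by omega
      interval_cases d
      · exact K T621.cs rfl (by decide) T621.no
      · exact K T5211.cs rfl (by decide) T5211.no
    · have hd : d ≤ 2 := by omega
      interval_cases d
      · exact K T522.cs rfl (by decide) T522.no
      · exact K T4221.cs rfl (by decide) T4221.no
      · exact K T3222.cs rfl (by decide) T3222.no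
  · -- `b = 3`
    have hc : c ≤ 2 := by omega
    interval_cases c
    · have hd : d ≤ 0 := by omega
      interval_cases d
      · exact K T63.cs rfl (by decide) T63.no
    · have hd : d ≤ 1 := by omega
      interval_cases d
      · exact K T531.cs rfl (by decide) T531.no
      · exact K T4311.cs rfl (by decide) T4311.no
    · have hd : d ≤ 1 := by omega
      interval_cases d
      · exact K T432.cs rfl (by decide) T432.no
      · exact K T3321.cs rfl (by decide) T3321.no
  · -- `b = 4`
    have hc : c ≤ 1 := by omega
    interval_cases c
    · have hd : d ≤ 0 := by omega
      interval_cases d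
      · exact K T54.cs rfl (by decide) T54.no
    · have hd : d ≤ 0 := by omega
      interval_cases d
      · exact K T441.cs rfl (by decide) T441.no

end Pool.Agent.Results.MP_e6539c_co.LinearForestNine
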