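import Pool.Agent.V8H16.TD.Deg

/-!
# Graphs with two disjoint circuits which are adjacent everywhere (MP_e6539c_co)

Let `G` be a finite multigraph without Petersen minor with two disjoint circuits `C` and `D` such
that every vertex of `C` has a neighbour on `D` and every vertex of `D` has a neighbour on `C`
(vertices which are only incident with circuit edges and loops are also allowed).  Let the set of
the edges outside `C` and `D` be the union of an edge set `Y₁` which has even degrees at all
vertices outside `C` and `D`, and of a cycle `Y₂`.  Then the edge set of `G` is the union of two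
cycles.  The degrees of the vertices are arbitrary.

For `Y₂ = ∅` the hypothesis says that all vertices outside `C` and `D` have even degrees; for
example, there may be no such vertices, and then `G` consists of the two circuits, edges between
them and arbitrary further edges with both ends in `C` or both ends in `D`.  In general the
hypothesis is satisfied if there is a cycle `Z` which contains `C`, `D` and all vertices of odd
degree and whose components contain even numbers of vertices of odd degree, apart from the
components of `C` and `D`.

Proof.  Call the edges between `C` and `D` rungs.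

(1) Give the edges outside of `C` and `D` the values `(1, 0)`, `(0, 1)`, `(1, 1)` according to `Y₁`
and `Y₂`, and give the edges of `C` and `D` values `(x, 1)`.  The values `x` can be chosen such that
the sum is zero at all vertices except one vertex of `C` and one vertex of `D`, with the same sum
`0` or `(1, 0)` at both of them, and these two vertices are arbitrary (`TD/Flow`).

(2) Therefore, if there is a circuit with at most four edges which meets `C` and `D`, then the graph
in which the vertices of this circuit are identified has a nowhere-zero flow, and it extends to `G`
by the starting library (`TD/Close`).  Vertices without further edges are suppressed (`TD/Main`).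

(3) Suppose that every vertex of `C` and `D` has a rung and that there is no such short circuit.
Write the rungs as points of a torus whose rows are the vertices of `C` and whose columns are the
vertices of `D`.  All rows and all columns are used, and there are no two different points at
distance at most two.  It is shown that there are five points in different rows and different
columns whose cyclic orders in `C` and `D` form a pentagram (`TC/Cyc`); the corresponding rungs and
`C` and `D` give a Petersen minor (`TD/Minor`).  To see this, take a minimal set of points which
uses all rows and columns.  Its components are stars.  If some component is a single point, then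
the rest is a rectangle, and by the lemma on windows (`TC/Win`) it contains one of the patterns 2413
and 3142, which gives a pentagram together with the single point.  Otherwise let two points of the
same row or column have the smallest distance (`TC/Nrm`).  The rows between them and the other rows
are compared (`TC/Core`): unless there is a pentagram, there is a closed window with a point outside
of it, and the lemma on windows applies.
-/

set_option autoImplicit false

namespace Pool.Agent.Results.MP_e6539c_co.TwoCircuits

open Pool.Agent.TH362.Multi Pool.Agent.V8H16.TD

/-- The edge `e` joins the vertices `u` and `v`. -/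
def Joins {V E : Type} (s t : E → V) (e : E) (u v : V) : Prop :=
  (s e = u ∧ t e = v) ∨ (s e = v ∧ t e = u)

/-- The different vertices `c 0, ..., c (n - 1)` and the different edges `f 0, ..., f (n - 1)` are
the vertices and the edges of a circuit with `n ≥ 1` edges: the edge `f i` joins `c i` and
`c (i + 1)`, where the indices are read modulo `n`.  A loop is a circuit with one edge, two parallel
edges form a circuit with two edges. -/
def IsCircuit {V E : Type} (s t : E → V) (n : ℕ) (c : ℕ → V) (f : ℕ → E) : Prop :=
  0 < n ∧ (∀ i < n, ∀ j < n, c i = c j → i = j) ∧ (∀ i < n, ∀ j < n, f i = f j → i = j) ∧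
    ∀ i < n, Joins s t (f i) (c i) (c ((i + 1) % n))

/-- The Petersen graph is a minor: there are ten disjoint connected vertex sets, one for each
two-element subset of `{0, 1, 2, 3, 4}`, such that the sets for disjoint subsets are joined by an
edge. -/
def HasPetersenMinor {V E : Type} (s t : E → V) : Prop :=
  ∃ B : {p : Finset (Fin 5) // p.card = 2} → Set V,
    (∀ i, ConnectedSet s t (B i)) ∧
    (∀ i j, i ≠ j → Disjoint (B i) (B j)) ∧
    ∀ i j, Disjoint i.1 j.1 → ∃ e, (s e ∈ B i ∧ t e ∈ B j) ∨ (s e ∈ B j ∧ t e ∈ B i)

/-- Let `s t : E → V` be a finite multigraph without a Petersen minor, with two disjoint circuits: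
the vertices `c 0, ..., c (p - 1)` and the edges `f 0, ..., f (p - 1)`, and the vertices
`d 0, ..., d (q - 1)` and the edges `g 0, ..., g (q - 1)`.  Let the set of the other edges be the
union of `Y₁` and `Y₂`, where `Y₂` is a cycle and all vertices outside the two circuits have even
degrees in `Y₁`.  Suppose that every vertex of the two circuits is adjacent to a vertex of the other
circuit, or is incident only with loops and with edges of the two circuits, and that at least two
different pairs `c i`, `d j` are adjacent.  Then the edge set is the union of two cycles. -/
theorem result (V E : Type) [Finite V] [Finite E] (s t : E → V) (hP : ¬ HasPetersenMinor s t)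
    (p q : ℕ) (c d : ℕ → V) (f g : ℕ → E)
    (hc : IsCircuit s t p c f) (hd : IsCircuit s t q d g) (hcd : ∀ i < p, ∀ j < q, c i ≠ d j)
    (Y₁ Y₂ : Set E) (hY : ∀ e, e ∈ Y₁ ∪ Y₂ ↔ (∀ i < p, e ≠ f i) ∧ ∀ j < q, e ≠ g j)
    (h₁ : ∀ v, (∀ i < p, v ≠ c i) → (∀ j < q, v ≠ d j) → Even (degree s t Y₁ v))
    (h₂ : IsCycle s t Y₂)
    (hC : ∀ i < p, (∃ j < q, ∃ e, Joins s t e (c i) (d j)) ∨
      ∀ e ∈ Y₁ ∪ Y₂, s e ≠ t e → s e ≠ c i ∧ t e ≠ c i)
    (hD : ∀ j < q, (∃ i < p, ∃ e, Joins s t e (c i) (d j)) ∨
      ∀ e ∈ Y₁ ∪ Y₂, s e ≠ t e → s e ≠ d j ∧ t e ≠ d j)
    (h3 : ∃ i < p, ∃ j < q, ∃ i' < p, ∃ j' < q, (i ≠ i' ∨ j ≠ j') ∧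
      (∃ e, Joins s t e (c i) (d j)) ∧ ∃ e, Joins s t e (c i') (d j')) :
    ∃ C₁ C₂ : Set E, IsCycle s t C₁ ∧ IsCycle s t C₂ ∧ C₁ ∪ C₂ = Set.univ := by
  classical
  have := Fintype.ofFinite V
  have := Fintype.ofFinite E
  have hc' : Circ s t p c f := ⟨hc.1, hc.2.1, hc.2.2.1, hc.2.2.2⟩
  have hd' : Circ s t q d g := ⟨hd.1, hd.2.1, hd.2.2.1, hd.2.2.2⟩
  have np : NoPent (Sr s t p q c d) := by
    by_contra hpent
    exact hP (pent hc' hd' hcd hpent)
  obtain ⟨y, hy⟩ := hyp_of hc' hd' hcd hY h₂ h₁ hC hD h3 np
  exact TH362.TF.two_cycles s t (Hyp.flow _ s t p q c d f g le_rfl hy)

end Pool.Agent.Results.MP_e6539c_co.TwoCircuits
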